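import Pool.Agent.R592.Ba.Defs

namespace Pool.Agent.R592.Ba

open Cardinal Set

/-- The dominating number `𝔡`. -/
noncomputable def dnum : Cardinal.{0} :=
  sInf {κ | ∃ F : Set (ℕ → ℕ), #F = κ ∧ ∀ g, ∃ f ∈ F, LeStar g f}

theorem mkIio {c : Cardinal.{0}} (i : c.ord.ToType) : #(Iio i) < c := by
  simpa using mk_Iio_lt i

/-- A set with fewer elements than the cofinality is bounded. -/
theorem bounded_of_small {α : Type} [LinearOrder α] {s : Set α}
    (hs : #s < Order.cof α) : ∃ t : α, ∀ x ∈ s, x < t := by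
  by_contra hcon
  push Not at hcon
  have : IsCofinal s := by
    intro t
    obtain ⟨x, hx, hxt⟩ := hcon t
    exact ⟨x, hx, hxt⟩
  exact absurd (Order.cof_le this) (not_le.mpr hs)

/-- From a sequence, of length the cofinality of `κ`, which is eventually unbounded to a set of
size `κ` whose bounded subsets are small. -/
theorem comb {κ : Cardinal.{0}} (hc : κ ≤ 𝔠) {M : Type} [LinearOrder M]
    [WellFoundedLT M] (hM : ∀ i : M, #(Iio i) < κ.ord.cof)
    (k : M → κ.ord.ToType) (hk : ∀ t, ∃ i, t ≤ k i) (y : M → W)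
    (hy : ∀ g : ℕ → ℕ, ∃ i0, ∀ i, i0 ≤ i → ¬ ∀ n, y i n ≤ g n) :
    ∃ E : Set W, #E = κ ∧ ∀ g : ℕ → ℕ, #({f ∈ E | ∀ n, f n ≤ g n} : Set W) < κ := by
  classical
  let T := κ.ord.ToType
  have hT : #T = κ := mk_ord_toType κ
  -- the least index
  let c : T → M := fun t => WellFounded.min (wellFounded_lt (α := M)) {i | t ≤ k i} (hk t)
  have hc1 : ∀ t, t ≤ k (c t) := fun t =>
    WellFounded.min_mem (wellFounded_lt (α := M)) {i | t ≤ k i} (hk t)
  have hemb : Nonempty (T ↪ X) := by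
    rw [← Cardinal.le_def, hT]
    simpa [X] using hc
  obtain ⟨x⟩ := hemb
  let e : T → W := fun t n => 2 * y (c t) n + (if x t n then 1 else 0)
  have he : Function.Injective e := by
    intro t t' htt
    apply x.injective
    funext n
    have h1 := congrFun htt n
    simp only [e] at h1
    by_cases h2 : x t n = true <;> by_cases h3 : x t' n = true
    · rw [h2, h3]
    · simp only [h2, h3] at h1
      simp at h1
      omega
    · simp only [h2, h3] at h1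
      simp at h1
      omega
    · simp only [Bool.not_eq_true] at h2 h3
      rw [h2, h3]
  refine ⟨range e, ?_, ?_⟩
  · rw [mk_range_eq e he, hT]
  · intro g
    obtain ⟨i0, hi0⟩ := hy g
    have hsm : #(k '' (Iio i0)) < Order.cof T := by
      rw [Ordinal.cof_toType]
      exact lt_of_le_of_lt mk_image_le (hM i0)
    obtain ⟨t0, ht0⟩ := bounded_of_small hsm
    have hsub : ({f ∈ range e | ∀ n, f n ≤ g n} : Set W) ⊆ e '' (Iio t0) := by
      rintro f ⟨⟨t, rfl⟩, hf⟩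
      refine ⟨t, ?_, rfl⟩
      have h1 : c t < i0 := by
        by_contra hcon
        rw [not_lt] at hcon
        apply hi0 _ hcon
        intro n
        have := hf n
        simp only [e] at this
        omega
      exact lt_of_le_of_lt (hc1 t) (ht0 _ ⟨c t, h1, rfl⟩)
    calc #({f ∈ range e | ∀ n, f n ≤ g n} : Set W) ≤ #(e '' (Iio t0)) :=
          mk_le_mk_of_subset hsub
      _ ≤ #(Iio t0) := mk_image_le
      _ < κ := mkIio t0

/-- A cofinal map from the cofinality. -/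
theorem exists_cofinal (κ : Cardinal.{0}) {μ : Cardinal.{0}} (h : κ.ord.cof = μ) :
    ∃ k : μ.ord.ToType → κ.ord.ToType, ∀ t, ∃ i, t ≤ k i := by
  obtain ⟨s, hs, hs'⟩ := Order.exists_cof_eq κ.ord.ToType
  rw [Ordinal.cof_toType, h] at hs'
  have : Cardinal.mk μ.ord.ToType = #s := by rw [hs', mk_ord_toType]
  obtain ⟨f⟩ := Cardinal.eq.mp this
  refine ⟨fun i => (f i : κ.ord.ToType), fun t => ?_⟩
  obtain ⟨x, hx, hxt⟩ := hs t
  refine ⟨f.symm ⟨x, hx⟩, ?_⟩
  simpa using hxt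

theorem dnum_spec : ∃ F : Set (ℕ → ℕ), #F = dnum ∧ ∀ g, ∃ f ∈ F, LeStar g f := by
  have : dnum ∈ {κ | ∃ F : Set (ℕ → ℕ), #F = κ ∧ ∀ g, ∃ f ∈ F, LeStar g f} := by
    apply csInf_mem
    exact ⟨_, univ, rfl, fun g => ⟨g, mem_univ _, Filter.Eventually.of_forall fun n => le_rfl⟩⟩
  exact this

theorem bnum_le_dnum : bnum ≤ dnum := by
  obtain ⟨F, hF, hdom⟩ := dnum_spec
  rw [← hF]
  apply csInf_le'
  refine ⟨F, rfl, ?_⟩
  rintro ⟨g, hg⟩
  obtain ⟨f, hf, hgf⟩ := hdom (fun n => g n + 1)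
  have h1 := (hg f hf).and hgf
  obtain ⟨n, hn⟩ := h1.exists
  simp only at hn
  omega

theorem not_dom {F : Set (ℕ → ℕ)} (h : #F < dnum) : ∃ g, ∀ f ∈ F, ¬ LeStar g f := by
  by_contra hcon
  push Not at hcon
  have : dnum ≤ #F := csInf_le' ⟨F, rfl, hcon⟩
  exact absurd h (not_lt.mpr this)

/-- The sequence of length `cof 𝔡`. -/
theorem exists_seq (hb : ℵ₀ < bnum) {μ : Cardinal.{0}} (hμ : dnum.ord.cof = μ) :
    ∃ y : μ.ord.ToType → W,
      ∀ g : ℕ → ℕ, ∃ i0, ∀ i, i0 ≤ i → ¬ LeStar (y i) g := by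
  obtain ⟨D, hD, hdom⟩ := dnum_spec
  obtain ⟨k, hk⟩ := exists_cofinal dnum hμ
  have : Cardinal.mk dnum.ord.ToType = #D := by rw [hD, mk_ord_toType]
  obtain ⟨f⟩ := Cardinal.eq.mp this
  -- bounded initial parts
  have hbd : ∀ i : μ.ord.ToType, ∃ t0, ∀ x ∈ k '' (Iio i), x < t0 := by
    intro i
    apply bounded_of_small
    rw [Ordinal.cof_toType, hμ]
    exact lt_of_le_of_lt mk_image_le (mkIio i)
  choose t0 ht0 using hbd
  have hyex : ∀ i : μ.ord.ToType, ∃ g : W, ∀ j, j ≤ max (t0 i) (k i) → ¬ LeStar g (f j) := by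
    intro i
    have hinf : ℵ₀ ≤ dnum := hb.le.trans bnum_le_dnum
    have hsmall : #(((fun j => (f j : ℕ → ℕ)) '' (Iic (max (t0 i) (k i))))) < dnum := by
      refine lt_of_le_of_lt mk_image_le ?_
      rw [← Iio_union_right]
      refine lt_of_le_of_lt (mk_union_le _ _) ?_
      apply add_lt_of_lt hinf (mkIio _)
      rw [mk_singleton]
      exact one_lt_aleph0.trans_le hinf
    obtain ⟨g, hg⟩ := not_dom hsmall
    exact ⟨g, fun j hj => hg _ ⟨j, hj, rfl⟩⟩
  choose y hy using hyex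
  refine ⟨y, fun g => ?_⟩
  obtain ⟨f0, hf0, hgf⟩ := hdom g
  obtain ⟨i0, hi0⟩ := hk (f.symm ⟨f0, hf0⟩)
  refine ⟨i0, fun i hi hcon => ?_⟩
  have h1 : f.symm ⟨f0, hf0⟩ ≤ max (t0 i) (k i) := by
    rcases hi.lt_or_eq with h | h
    · exact (hi0.trans (ht0 i _ ⟨i0, h, rfl⟩).le).trans (le_max_left _ _)
    · rw [← h]
      exact hi0.trans (le_max_right _ _)
  apply hy i _ h1
  have h2 : ((f (f.symm ⟨f0, hf0⟩) : D) : ℕ → ℕ) = f0 := by simp
  rw [h2]
  filter_upwards [hcon, hgf] with n h3 h4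
  exact h3.trans h4

theorem bnum_le_cof (hb : ℵ₀ < bnum) : bnum ≤ dnum.ord.cof := by
  obtain ⟨y, hy⟩ := exists_seq hb (rfl : dnum.ord.cof = dnum.ord.cof)
  have h1 : bnum ≤ #(range y) := by
    apply csInf_le'
    refine ⟨range y, rfl, ?_⟩
    rintro ⟨g, hg⟩
    obtain ⟨i0, hi0⟩ := hy g
    exact hi0 i0 le_rfl (hg _ ⟨i0, rfl⟩)
  refine h1.trans (mk_range_le.trans ?_)
  rw [mk_ord_toType]

/-- If `κ` has the cofinality of `𝔡`, some set of size `κ` has only small bounded subsets. -/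
theorem cofD (hb : ℵ₀ < bnum) (κ : Cardinal.{0}) (hκ : κ.ord.cof = dnum.ord.cof)
    (hc : κ ≤ 𝔠) :
    ∃ E : Set W, #E = κ ∧ ∀ g : ℕ → ℕ, #({f ∈ E | ∀ n, f n ≤ g n} : Set W) < κ := by
  obtain ⟨y, hy⟩ := exists_seq hb (hκ.symm)
  obtain ⟨k, hk⟩ := exists_cofinal κ (rfl : κ.ord.cof = κ.ord.cof)
  refine comb hc (M := κ.ord.cof.ord.ToType) (fun i => mkIio i) k hk y ?_
  intro g
  obtain ⟨i0, hi0⟩ := hy g
  exact ⟨i0, fun i hi hcon => hi0 i hi (Filter.Eventually.of_forall hcon)⟩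

end Pool.Agent.R592.Ba
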