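import Mathlib

/-!
Weak and full Baumgartner axioms on the Cantor space `ℕ → Bool` and the Baire space `ℕ → ℕ`.
-/

namespace Pool.Agent.R592.Ba

open Cardinal Set

/-- The Cantor space. -/
abbrev X : Type := ℕ → Bool

/-- The Baire space. -/
abbrev W : Type := ℕ → ℕ

/-- `A` is `κ`-dense in `Y`: it meets every nonempty open set in exactly `κ` points. -/
def KDense {Y : Type} [TopologicalSpace Y] (κ : Cardinal.{0}) (A : Set Y) : Prop :=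
  ∀ U : Set Y, IsOpen U → U.Nonempty → #(↥(A ∩ U)) = κ

/-- The full axiom `BA_κ(Y)`. -/
def BA (κ : Cardinal.{0}) (Y : Type) [TopologicalSpace Y] : Prop :=
  ∀ A B : Set Y, KDense κ A → KDense κ B → ∃ h : Y ≃ₜ Y, h '' A = B

/-- The weak axiom `BA⁻_κ(Y)`. -/
def BAm (κ : Cardinal.{0}) (Y : Type) [TopologicalSpace Y] : Prop :=
  ∀ A B : Set Y, KDense κ A → KDense κ B → Nonempty (A ≃ₜ B)

/-- Eventual domination. -/
def LeStar (f g : ℕ → ℕ) : Prop := ∀ᶠ n in Filter.atTop, f n ≤ g n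

/-- The bounding number `𝔟`. -/
noncomputable def bnum : Cardinal.{0} :=
  sInf {κ | ∃ F : Set (ℕ → ℕ), #F = κ ∧ ¬ ∃ g, ∀ f ∈ F, LeStar f g}

/-- The least size of a nonmeagre subset of the Cantor space, `non(M)`. -/
noncomputable def nonM : Cardinal.{0} :=
  sInf {κ | ∃ N : Set X, #N = κ ∧ ¬ IsMeagre N}

/-- The basic clopen set of a finite string. -/
def cyl (s : List Bool) : Set X := {x | ∀ i (h : i < s.length), x i = s[i]}

/-- Concatenation of a finite string and a point. -/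
def app (s : List Bool) (x : X) : X :=
  fun i => if h : i < s.length then s[i] else x (i - s.length)

/-- Agreement on the first `n` coordinates. -/
def Agree (n : ℕ) (x y : X) : Prop := ∀ i < n, x i = y i

/-- A node: a pair of clopen sets with a homeomorphism between closed nowhere dense subsets
of them respecting `(A, B)` and `(C, D)`. -/
structure Node (A B C D : Set X) where
  U : Set X
  V : Set X
  F : Set X
  G : Set X
  φ : X → X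
  ψ : X → X
  oU : IsClopen U
  oV : IsClopen V
  neU : U.Nonempty
  neV : V.Nonempty
  cF : IsClosed F
  cG : IsClosed G
  FU : F ⊆ U
  GV : G ⊆ V
  nF : interior F = ∅
  nG : interior G = ∅
  kφ : ContinuousOn φ F
  kψ : ContinuousOn ψ G
  mφ : ∀ x ∈ F, φ x ∈ G
  mψ : ∀ y ∈ G, ψ y ∈ F
  lφ : ∀ x ∈ F, ψ (φ x) = x
  lψ : ∀ y ∈ G, φ (ψ y) = y
  aB : ∀ x ∈ F, (x ∈ A ↔ φ x ∈ B)
  cD : ∀ x ∈ F, (x ∈ C ↔ φ x ∈ D)

/-- (BAF-1) A homeomorphism between small sets is an increasing union of homeomorphisms of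
compact sets missing two given countable sets. -/
def Approx : Prop :=
  ∀ (P R : Set X) (h : P ≃ₜ R), #P < bnum → ∀ c d : ℕ → X, (∀ i, c i ∉ P) → (∀ i, d i ∉ R) →
    ∃ (F G : ℕ → Set X) (φ ψ : ℕ → X → X),
      (∀ n, IsClosed (F n)) ∧ (∀ n, IsClosed (G n)) ∧
      (∀ n, F n ⊆ closure P) ∧ (∀ n, G n ⊆ closure R) ∧
      (∀ n i, c i ∉ F n) ∧ (∀ n i, d i ∉ G n) ∧
      (∀ n, Continuous (φ n)) ∧ (∀ n, Continuous (ψ n)) ∧
      (∀ n, ∀ x ∈ F n, φ n x ∈ G n) ∧ (∀ n, ∀ y ∈ G n, ψ n y ∈ F n) ∧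
      (∀ n, ∀ x ∈ F n, ψ n (φ n x) = x) ∧ (∀ n, ∀ y ∈ G n, φ n (ψ n y) = y) ∧
      (∀ n, ∀ x ∈ F n, (x ∈ P ↔ φ n x ∈ R)) ∧
      (∀ x ∈ P, ∃ N, ∀ n ≥ N, x ∈ F n) ∧ (∀ y ∈ R, ∃ N, ∀ n ≥ N, y ∈ G n)

/-- A system of nodes on all pairs of cylinders capturing every point of `A ∪ C` and of
`B ∪ D`. -/
def Fill (A B C D : Set X) : Prop :=
  ∃ fill : List Bool → List Bool → Node A B C D,
    (∀ s t, (fill s t).U = cyl s) ∧ (∀ s t, (fill s t).V = cyl t) ∧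
    (∀ x ∈ A ∪ C, ∃ N, ∀ s t : List Bool, N ≤ s.length → N ≤ t.length → x ∈ cyl s →
      x ∈ (fill s t).F) ∧
    (∀ y ∈ B ∪ D, ∃ N, ∀ s t : List Bool, N ≤ s.length → N ≤ t.length → y ∈ cyl t →
      y ∈ (fill s t).G)

/-- (BAF-2) existence of such a system. -/
def FillThm : Prop :=
  ∀ κ : Cardinal.{0}, κ < bnum → BAm κ X →
    ∀ A B C D : Set X, KDense κ A → KDense κ B → C.Countable → D.Countable →
      Dense C → Dense D → Disjoint A C → Disjoint B D → Fill A B C D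

/-- (BAF-3) splitting a node into small pieces. -/
def Split : Prop :=
  ∀ (U V F G : Set X) (φ ψ : X → X), IsClopen U → IsClopen V → U.Nonempty → V.Nonempty →
    IsClosed F → IsClosed G → F ⊆ U → G ⊆ V → interior F = ∅ → interior G = ∅ →
    ContinuousOn φ F → ContinuousOn ψ G → (∀ x ∈ F, φ x ∈ G) → (∀ y ∈ G, ψ y ∈ F) →
    (∀ x ∈ F, ψ (φ x) = x) → (∀ y ∈ G, φ (ψ y) = y) → ∀ n : ℕ,
    ∃ (ι : Type) (P Q : ι → Set X) (J : Type) (s t : J → List Bool),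
      (∀ i, IsClopen (P i)) ∧ (∀ i, IsClopen (Q i)) ∧
      (∀ i, ∃ x ∈ F, x ∈ P i) ∧
      (∀ i, ∀ x ∈ P i, ∀ y ∈ P i, Agree n x y) ∧ (∀ i, ∀ x ∈ Q i, ∀ y ∈ Q i, Agree n x y) ∧
      (∀ j, n ≤ (s j).length) ∧ (∀ j, n ≤ (t j).length) ∧
      (∀ i, P i ⊆ U) ∧ (∀ i, Q i ⊆ V) ∧ (∀ j, cyl (s j) ⊆ U) ∧ (∀ j, cyl (t j) ⊆ V) ∧
      (∀ x ∈ U, (∃ i, x ∈ P i) ∨ ∃ j, x ∈ cyl (s j)) ∧
      (∀ y ∈ V, (∃ i, y ∈ Q i) ∨ ∃ j, y ∈ cyl (t j)) ∧
      (∀ i i', i ≠ i' → Disjoint (P i) (P i')) ∧ (∀ i i', i ≠ i' → Disjoint (Q i) (Q i')) ∧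
      (∀ j j', j ≠ j' → Disjoint (cyl (s j)) (cyl (s j'))) ∧
      (∀ j j', j ≠ j' → Disjoint (cyl (t j)) (cyl (t j'))) ∧
      (∀ i j, Disjoint (P i) (cyl (s j))) ∧ (∀ i j, Disjoint (Q i) (cyl (t j))) ∧
      (∀ x ∈ F, ∀ i, x ∈ P i ↔ φ x ∈ Q i) ∧ (∀ x ∈ F, ∃ i, x ∈ P i)

/-- (BAF-4) the back-and-forth construction. -/
def BackForth : Prop :=
  Split → ∀ A B C D : Set X, Disjoint A C → Disjoint B D → Fill A B C D →
    ∃ h : X ≃ₜ X, h '' A = B ∧ h '' C = D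

/-- (BAF-8) an embedding of the Baire space in the Cantor space with countable dense
complement. -/
def EmbThm : Prop :=
  ∃ e : W → X, Topology.IsEmbedding e ∧ Dense (range e) ∧ (range e)ᶜ.Countable ∧
    Dense (range e)ᶜ ∧
    ∀ K : Set X, IsClosed K → K ⊆ range e → ∃ g : ℕ → ℕ, ∀ f : W, e f ∈ K → ∀ n, f n ≤ g n

/-- (BAF-5) the weak axiom makes all sets of size at most `κ` meagre. -/
def Meag : Prop :=
  ∀ κ : Cardinal.{0}, ℵ₀ ≤ κ → κ ≤ 𝔠 → BAm κ X → κ < nonM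

/-- (BAF-6) the weak axiom gives large bounded subsets. -/
def Conc : Prop :=
  EmbThm → ∀ κ : Cardinal.{0}, ℵ₀ < κ.ord.cof → κ ≤ 𝔠 → BAm κ X →
    ∀ E : Set W, #E = κ → ∃ g : ℕ → ℕ, #({f ∈ E | ∀ n, f n ≤ g n} : Set W) = κ

/-- (BAF-7) if `κ` has cofinality `𝔟` then there is a set of size `κ` all of whose bounded
subsets are smaller. -/
def CofB : Prop :=
  ∀ κ : Cardinal.{0}, κ.ord.cof = bnum → κ ≤ 𝔠 →
    ∃ E : Set W, #E = κ ∧ ∀ g : ℕ → ℕ, #({f ∈ E | ∀ n, f n ≤ g n} : Set W) < κ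

/-- (BAF-7b) basic facts on `𝔟`. -/
def BFacts : Prop :=
  ℵ₀ < bnum ∧ bnum ≤ 𝔠 ∧ bnum.ord.cof = bnum ∧
    ∀ (ι : Type) (F : ι → ℕ → ℕ), #ι < bnum → ∃ g, ∀ i, LeStar (F i) g

/-- (BAF-9a) from the Baire space to the Cantor space. -/
def WtoX : Prop :=
  EmbThm → ∀ κ : Cardinal.{0}, κ < 𝔠 → BAm κ W → BAm κ X

/-- (BAF-9b) from the strong homogeneity of the Cantor space to the Baire space. -/
def XtoW : Prop :=
  EmbThm → ∀ κ : Cardinal.{0},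
    (∀ A B C D : Set X, KDense κ A → KDense κ B → C.Countable → D.Countable →
      Dense C → Dense D → Disjoint A C → Disjoint B D →
      ∃ h : X ≃ₜ X, h '' A = B ∧ h '' C = D) → BA κ W

/-- (BAF-10) the weak axiom fails at the continuum for the Baire space. -/
def WCont : Prop := ¬ BAm 𝔠 W

end Pool.Agent.R592.Ba
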