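import Pool.Agent.R592.Ba.Defs

namespace Pool.Agent.R592.Ba

open Cardinal Set

theorem bam_of_ba {Y : Type} [TopologicalSpace Y] {κ : Cardinal.{0}} (h : BA κ Y) :
    BAm κ Y := by
  intro A B hA hB
  obtain ⟨f, hf⟩ := h A B hA hB
  exact ⟨(f.image A).trans (Homeomorph.setCongr hf)⟩

theorem mk_X : #X = 𝔠 := by
  simp [X]

theorem mk_W : #W = 𝔠 := by
  simp [W]

/-- No `κ`-dense sets for `κ > #Y`. -/
theorem ba_of_large {Y : Type} [TopologicalSpace Y] [Nonempty Y] {κ : Cardinal.{0}}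
    (h : #Y < κ) : BA κ Y := by
  intro A B hA _
  exfalso
  have h1 := hA univ isOpen_univ univ_nonempty
  have h2 : #(↥(A ∩ univ)) ≤ #Y := mk_set_le _
  rw [h1] at h2
  exact absurd h (not_lt.mpr h2)

theorem open_card {U : Set X} (hU : IsOpen U) (hne : U.Nonempty) : 𝔠 ≤ #U := by
  obtain ⟨x, hx⟩ := hne
  obtain ⟨I, u, hu, hIU⟩ := isOpen_pi_iff.mp hU x hx
  obtain ⟨n, hn⟩ := I.bddAbove
  have hmem : ∀ y : X, (fun i => if i < n + 1 then x i else y (i - (n + 1))) ∈ U := by
    intro y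
    apply hIU
    intro i hi
    have : i < n + 1 := Nat.lt_succ_of_le (hn hi)
    simp only [this, if_true]
    exact (hu i hi).2
  have hinj : Function.Injective (fun y : X => (⟨_, hmem y⟩ : U)) := by
    intro y z hyz
    have h1 := congrArg Subtype.val hyz
    funext i
    have h2 := congrFun h1 (i + (n + 1))
    have h3 : ¬ (i + (n + 1) < n + 1) := by omega
    simpa [h3] using h2
  calc 𝔠 = #X := mk_X.symm
    _ ≤ #U := mk_le_of_injective hinj

/-- A small `κ`-dense set misses some countable dense set. -/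
theorem exists_countable {κ : Cardinal.{0}} (hκ : κ < 𝔠) {A : Set X} (hA : KDense κ A) :
    ∃ C : Set X, C.Countable ∧ Dense C ∧ Disjoint A C := by
  have hd : Dense (Aᶜ) := by
    rw [dense_iff_inter_open]
    intro U hU hne
    by_contra hcon
    rw [not_nonempty_iff_eq_empty] at hcon
    have hsub : U ⊆ A := by
      intro x hx
      by_contra hxA
      have : x ∈ U ∩ Aᶜ := ⟨hx, hxA⟩
      rw [hcon] at this
      exact this
    have h1 := hA U hU hne
    rw [inter_eq_self_of_subset_right hsub] at h1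
    have h2 := open_card hU hne
    rw [h1] at h2
    exact absurd hκ (not_lt.mpr h2)
  obtain ⟨t, htA, htc, htd⟩ := hd.exists_countable_dense_subset
  exact ⟨t, htc, htd, by
    rw [Set.disjoint_left]
    intro x hx hxt
    exact htA hxt hx⟩

/-- Strong homogeneity of the Cantor space. -/
def Strong (κ : Cardinal.{0}) : Prop :=
  ∀ A B C D : Set X, KDense κ A → KDense κ B → C.Countable → D.Countable →
      Dense C → Dense D → Disjoint A C → Disjoint B D →
      ∃ h : X ≃ₜ X, h '' A = B ∧ h '' C = D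

theorem strong_of_bam (hSplit : Split) (hFill : FillThm) (hBF : BackForth)
    {κ : Cardinal.{0}} (hκ : κ < bnum) (h : BAm κ X) : Strong κ := by
  intro A B C D hA hB hC hD dC dD hAC hBD
  exact hBF hSplit A B C D hAC hBD (hFill κ hκ h A B C D hA hB hC hD dC dD hAC hBD)

theorem ba_of_strong {κ : Cardinal.{0}} (hκ : κ < 𝔠) (h : Strong κ) : BA κ X := by
  intro A B hA hB
  obtain ⟨C, hC, dC, hAC⟩ := exists_countable hκ hA
  obtain ⟨D, hD, dD, hBD⟩ := exists_countable hκ hB
  obtain ⟨f, hf, _⟩ := h A B C D hA hB hC hD dC dD hAC hBD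
  exact ⟨f, hf⟩

theorem not_bam_cof (hEmb : EmbThm) (hBf : BFacts) (hConc : Conc) (hCof : CofB)
    {κ : Cardinal.{0}} (hκ : κ.ord.cof = bnum) (hc : κ ≤ 𝔠) : ¬ BAm κ X := by
  intro h
  obtain ⟨E, hE, hsmall⟩ := hCof κ hκ hc
  obtain ⟨g, hg⟩ := hConc hEmb κ (by rw [hκ]; exact hBf.1) hc h E hE
  have := hsmall g
  rw [hg] at this
  exact lt_irrefl _ this

theorem not_bam_meag (hM : Meag) {κ : Cardinal.{0}} (h0 : ℵ₀ ≤ κ) (hκ : nonM ≤ κ)
    (hc : κ ≤ 𝔠) : ¬ BAm κ X := by
  intro h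
  exact absurd (hM κ h0 hc h) (not_lt.mpr hκ)

theorem aleph0_le_nonM : ℵ₀ ≤ nonM := by
  unfold nonM
  apply le_csInf
  · refine ⟨#(univ : Set X), univ, rfl, ?_⟩
    exact not_isMeagre_of_isOpen isOpen_univ univ_nonempty
  · rintro κ ⟨N, hN, hNm⟩
    by_contra hcon
    rw [not_le, ← hN] at hcon
    have hfin : N.Finite := Cardinal.lt_aleph0_iff_set_finite.mp hcon
    apply hNm
    have hpt : ∀ x : X, IsNowhereDense ({x} : Set X) := by
      intro x
      rw [isClosed_singleton.isNowhereDense_iff]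
      rw [Set.eq_empty_iff_forall_notMem]
      intro y hy
      rw [mem_interior] at hy
      obtain ⟨U, hUx, hU, hyU⟩ := hy
      have h1 := open_card hU ⟨y, hyU⟩
      have h2 : #U ≤ #({x} : Set X) := mk_le_mk_of_subset hUx
      rw [mk_singleton] at h2
      exact absurd (h1.trans h2) (not_le.mpr (one_lt_aleph0.trans aleph0_lt_continuum))
    have : N = ⋃ x ∈ N, {x} := by simp
    rw [this]
    rw [Set.biUnion_eq_iUnion]
    have := hfin.countable.to_subtype
    exact isMeagre_iUnion fun x => (hpt x).isMeagre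

/-- The equivalence on the Cantor space and on the Baire space. -/
theorem equiv_of (hSplit : Split) (hFill : FillThm) (hBF : BackForth) (hEmb : EmbThm)
    (hBf : BFacts) (hConc : Conc) (hCof : CofB) (hM : Meag) (hWX : WtoX) (hXW : XtoW)
    (hWc : WCont) (κ : Cardinal.{0}) (hκ : κ ≤ bnum ∨ nonM ≤ κ ∨ κ.ord.cof = bnum) :
    (BAm κ X ↔ BA κ X) ∧ (BAm κ W ↔ BA κ W) := by
  -- large cardinals
  rcases lt_or_ge 𝔠 κ with hbig | hc
  · have h1 : BA κ X := ba_of_large (by rw [mk_X]; exact hbig)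
    have h2 : BA κ W := ba_of_large (by rw [mk_W]; exact hbig)
    exact ⟨⟨fun _ => h1, bam_of_ba⟩, ⟨fun _ => h2, bam_of_ba⟩⟩
  by_cases hsmall : κ < bnum
  · have hlt : κ < 𝔠 := lt_of_lt_of_le hsmall hBf.2.1
    have key : BAm κ X → Strong κ := strong_of_bam hSplit hFill hBF hsmall
    refine ⟨⟨fun h => ba_of_strong hlt (key h), bam_of_ba⟩, ⟨fun h => ?_, bam_of_ba⟩⟩
    exact hXW hEmb κ (key (hWX hEmb κ hlt h))
  · have hX : ¬ BAm κ X := by
      rcases hκ with h | h | h
      · have hEq : κ = bnum := le_antisymm h (not_lt.mp hsmall)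
        subst hEq
        exact not_bam_cof hEmb hBf hConc hCof hBf.2.2.1 hc
      · exact not_bam_meag hM (aleph0_le_nonM.trans h) h hc
      · exact not_bam_cof hEmb hBf hConc hCof h hc
    have hW : ¬ BAm κ W := by
      rcases hc.lt_or_eq with hlt | hEq
      · exact fun h => hX (hWX hEmb κ hlt h)
      · rw [hEq]; exact hWc
    exact ⟨⟨fun h => absurd h hX, bam_of_ba⟩, ⟨fun h => absurd h hW, bam_of_ba⟩⟩

end Pool.Agent.R592.Ba
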