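import Pool.Agent.R139.Ba.Approx
import Pool.Agent.R141.Ba.Fill
import Pool.Agent.R984.Ba.Split
import Pool.Agent.HP981.Ba.BackForth
import Pool.Agent.R293.Ba.Conc
import Pool.Agent.R172.Ba.BCof
import Pool.Agent.R596.Ba.Emb
import Pool.Agent.R150.Ba.Transfer
import Pool.Agent.R676.Ba.WC
import Pool.Agent.R734.Ba.Meag
import Pool.Agent.R592.Ba.Main
import Pool.Agent.R592.Ba.CofD

namespace Pool.Agent.R592.Ba

open Cardinal Set

theorem b_facts : BFacts := Pool.Agent.R172.Ba.bFacts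

theorem emb_thm : EmbThm := Pool.Agent.R596.Ba.embThm

theorem conc_thm : Conc := Pool.Agent.R293.Ba.conc

theorem strong_thm {κ : Cardinal.{0}} (hκ : κ < bnum) (h : BAm κ X) : Strong κ :=
  strong_of_bam Pool.Agent.R984.Ba.split
    (Pool.Agent.R141.Ba.fillThm Pool.Agent.R139.Ba.approx)
    Pool.Agent.HP981.Ba.backForth hκ h

/-- The weak axiom fails when `cof κ` is the cofinality of the dominating number. -/
theorem not_bam_cofD {κ : Cardinal.{0}} (hκ : κ.ord.cof = dnum.ord.cof) (hc : κ ≤ 𝔠) :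
    ¬ BAm κ X := by
  intro h
  obtain ⟨E, hE, hsmall⟩ := cofD b_facts.1 κ hκ hc
  obtain ⟨g, hg⟩ := conc_thm emb_thm κ
    (by rw [hκ]; exact lt_of_lt_of_le b_facts.1 (bnum_le_cof b_facts.1)) hc h E hE
  have := hsmall g
  rw [hg] at this
  exact lt_irrefl _ this

theorem equiv_thm (κ : Cardinal.{0})
    (hκ : κ ≤ bnum ∨ nonM ≤ κ ∨ κ.ord.cof = bnum ∨ κ.ord.cof = dnum.ord.cof) :
    (BAm κ X ↔ BA κ X) ∧ (BAm κ W ↔ BA κ W) := by
  by_cases h3 : κ ≤ bnum ∨ nonM ≤ κ ∨ κ.ord.cof = bnum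
  · exact equiv_of Pool.Agent.R984.Ba.split
      (Pool.Agent.R141.Ba.fillThm Pool.Agent.R139.Ba.approx)
      Pool.Agent.HP981.Ba.backForth emb_thm b_facts conc_thm Pool.Agent.R172.Ba.cofB
      Pool.Agent.R734.Ba.meag Pool.Agent.R150.Ba.wToX Pool.Agent.R150.Ba.xToW
      Pool.Agent.R676.Ba.wCont κ h3
  · have h4 : κ.ord.cof = dnum.ord.cof := by tauto
    rcases lt_or_ge 𝔠 κ with hbig | hc
    · have h1 : BA κ X := ba_of_large (by rw [mk_X]; exact hbig)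
      have h2 : BA κ W := ba_of_large (by rw [mk_W]; exact hbig)
      exact ⟨⟨fun _ => h1, bam_of_ba⟩, ⟨fun _ => h2, bam_of_ba⟩⟩
    · have hX : ¬ BAm κ X := not_bam_cofD h4 hc
      have hW : ¬ BAm κ W := by
        rcases hc.lt_or_eq with hlt | hEq
        · exact fun h => hX (Pool.Agent.R150.Ba.wToX emb_thm κ hlt h)
        · rw [hEq]; exact Pool.Agent.R676.Ba.wCont
      exact ⟨⟨fun h => absurd h hX, bam_of_ba⟩, ⟨fun h => absurd h hW, bam_of_ba⟩⟩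

/-- Necessary conditions for the weak axiom. -/
theorem necessary (κ : Cardinal.{0}) (h0 : ℵ₀ ≤ κ) (hc : κ ≤ 𝔠) (h : BAm κ X) :
    κ < nonM ∧ κ.ord.cof ≠ bnum ∧ κ.ord.cof ≠ dnum.ord.cof ∧
      (ℵ₀ < κ.ord.cof → ∀ E : Set W, #E = κ →
        ∃ g : ℕ → ℕ, #({f ∈ E | ∀ n, f n ≤ g n} : Set W) = κ) := by
  refine ⟨Pool.Agent.R734.Ba.meag κ h0 hc h, fun hcof => ?_, fun hcof => ?_, fun h1 => ?_⟩
  · exact not_bam_cof emb_thm b_facts conc_thm Pool.Agent.R172.Ba.cofB hcof hc h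
  · exact not_bam_cofD hcof hc h
  · exact conc_thm emb_thm κ h1 hc h

end Pool.Agent.R592.Ba
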