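import Pool.Agent.R592.Ba.Defs

/-!
Strong measure zero sets of the Cantor space, covering number for category.
-/

namespace Pool.Agent.R592.Ba

open Cardinal Set

/-- The covering number for category, `cov(M)`: the least size of a family of meagre subsets of
the Cantor space with union the whole space. -/
noncomputable def covM : Cardinal.{0} :=
  sInf {κ | ∃ 𝒩 : Set (Set X), #𝒩 = κ ∧ (∀ N ∈ 𝒩, IsMeagre N) ∧ ⋃₀ 𝒩 = Set.univ}

/-- Strong measure zero subsets of the Cantor space: for every sequence of lengths the set is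
covered by a sequence of cylinders of at least these lengths. -/
def SMZ (A : Set X) : Prop :=
  ∀ f : ℕ → ℕ, ∃ σ : ℕ → List Bool, (∀ n, f n ≤ (σ n).length) ∧ A ⊆ ⋃ n, cyl (σ n)

/-- (SMZ-1) below `𝔟`, covering number at most `κ` gives a small set not of strong measure
zero. -/
def NonSmz : Prop :=
  ∀ κ : Cardinal.{0}, κ < bnum → covM ≤ κ → ∃ Y : Set X, #Y ≤ κ ∧ ¬ SMZ Y

/-- (SMZ-2) closure properties of strong measure zero sets. -/
def SmzProps : Prop :=
  (∀ A B : Set X, A ⊆ B → SMZ B → SMZ A) ∧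
  (∀ A : ℕ → Set X, (∀ n, SMZ (A n)) → SMZ (⋃ n, A n)) ∧
  (∀ (h : X → X) (A : Set X), Continuous h → SMZ A → SMZ (h '' A)) ∧
  (∀ κ : Cardinal.{0}, ℵ₀ ≤ κ → ∀ Z : Set X, #Z = κ → SMZ Z →
    ∃ A : Set X, KDense κ A ∧ SMZ A ∧ ∀ Y : Set X, #Y ≤ κ → KDense κ (Y ∪ A))

/-- (SMZ-3) from the real line to the Cantor space. -/
def RtoX : Prop :=
  ∀ κ : Cardinal.{0}, κ < 𝔠 → BAm κ ℝ → BAm κ X

end Pool.Agent.R592.Ba
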