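import Pool.Agent.R592.Ba.Final
import Pool.Agent.R592.Ba.Smz
import Pool.Agent.R746.Ba.NonSmz
import Pool.Agent.R331.Ba.SmzProps
import Pool.Agent.R83.Ba.RtoX

namespace Pool.Agent.R592.Ba

open Cardinal Set

theorem smz_small {κ : Cardinal.{0}} (h0 : ℵ₀ ≤ κ) (hb : κ < bnum) (h : BAm κ X)
    (hcov : covM ≤ κ) (Z : Set X) (hZ : SMZ Z) : #Z < κ := by
  by_contra hcon
  rw [not_lt] at hcon
  obtain ⟨p1, _, p3, p4⟩ := Pool.Agent.R331.Ba.smzProps
  obtain ⟨Z', hZ'⟩ := Cardinal.le_mk_iff_exists_subset.mp hcon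
  obtain ⟨hsub, hcard⟩ := hZ'
  have hZ's : SMZ Z' := p1 Z' Z hsub hZ
  obtain ⟨A, hA, hAs, hY⟩ := p4 κ h0 Z' hcard hZ's
  obtain ⟨Y, hYc, hYn⟩ := Pool.Agent.R746.Ba.nonSmz κ hb hcov
  have hB := hY Y hYc
  have hlt : κ < 𝔠 := lt_of_lt_of_le hb b_facts.2.1
  obtain ⟨f, hf⟩ := ba_of_strong hlt (strong_thm hb h) A (Y ∪ A) hA hB
  have h1 : SMZ (f '' A) := p3 f A f.continuous hAs
  rw [hf] at h1
  exact hYn (p1 Y (Y ∪ A) subset_union_left h1)

theorem covM_le : covM ≤ 𝔠 := by
  have h1 : covM ≤ #(range (fun x : X => ({x} : Set X))) := by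
    apply csInf_le'
    refine ⟨_, rfl, ?_, ?_⟩
    · rintro N ⟨x, rfl⟩
      have hpt : IsNowhereDense ({x} : Set X) := by
        rw [isClosed_singleton.isNowhereDense_iff]
        rw [Set.eq_empty_iff_forall_notMem]
        intro y hy
        rw [mem_interior] at hy
        obtain ⟨U, hUx, hU, hyU⟩ := hy
        have h1 := open_card hU ⟨y, hyU⟩
        have h2 : #U ≤ #({x} : Set X) := mk_le_mk_of_subset hUx
        rw [mk_singleton] at h2
        exact absurd (h1.trans h2) (not_le.mpr (one_lt_aleph0.trans aleph0_lt_continuum))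
      exact hpt.isMeagre
    · ext x
      simp
  refine h1.trans (mk_range_le.trans ?_)
  rw [mk_X]

/-- A finite family of meagre sets does not cover. -/
theorem aleph0_le_covM : ℵ₀ ≤ covM := by
  unfold covM
  apply le_csInf
  · refine ⟨_, {N : Set X | IsMeagre N}, rfl, fun N hN => hN, ?_⟩
    rw [Set.eq_univ_iff_forall]
    intro x
    refine ⟨{x}, ?_, rfl⟩
    have hpt : IsNowhereDense ({x} : Set X) := by
      rw [isClosed_singleton.isNowhereDense_iff]
      rw [Set.eq_empty_iff_forall_notMem]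
      intro y hy
      rw [mem_interior] at hy
      obtain ⟨U, hUx, hU, hyU⟩ := hy
      have h1 := open_card hU ⟨y, hyU⟩
      have h2 : #U ≤ #({x} : Set X) := mk_le_mk_of_subset hUx
      rw [mk_singleton] at h2
      exact absurd (h1.trans h2) (not_le.mpr (one_lt_aleph0.trans aleph0_lt_continuum))
    exact hpt.isMeagre
  · rintro κ ⟨S, hS, hSm, hcov⟩
    by_contra hcon
    rw [not_le, ← hS] at hcon
    have hfin : S.Finite := Cardinal.lt_aleph0_iff_set_finite.mp hcon
    have h1 : IsMeagre (⋃₀ S) := by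
      rw [Set.sUnion_eq_iUnion]
      have := hfin.countable.to_subtype
      exact isMeagre_iUnion fun N => hSm N.1 N.2
    rw [hcov] at h1
    exact not_isMeagre_of_isOpen isOpen_univ univ_nonempty h1

/-- The weak axiom for the real line fails at the continuum. -/
theorem not_bam_real : ¬ BAm 𝔠 ℝ := by
  intro h
  have hop : ∀ U : Set ℝ, IsOpen U → U.Nonempty → #U = 𝔠 := by
    intro U hU hne
    apply le_antisymm
    · exact (mk_set_le _).trans (by rw [mk_real])
    · exact continuum_le_cardinal_of_isOpen ℝ hU hne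
  have h1 : KDense 𝔠 (Set.univ : Set ℝ) := by
    intro U hU hne
    rw [univ_inter]
    exact hop U hU hne
  have h2 : KDense 𝔠 (({0} : Set ℝ)ᶜ) := by
    intro U hU hne
    apply hop _ (isOpen_compl_singleton.inter hU)
    have hd : Dense (({0} : Set ℝ)ᶜ) := dense_compl_singleton 0
    have := hd.inter_open_nonempty U hU hne
    rwa [inter_comm] at this
  obtain ⟨f⟩ := h _ _ h1 h2
  have hconn : PreconnectedSpace (↥(({0} : Set ℝ)ᶜ)) := by
    have : PreconnectedSpace (↥(Set.univ : Set ℝ)) := by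
      exact isPreconnected_iff_preconnectedSpace.mp isPreconnected_univ
    refine ⟨?_⟩
    rw [← f.surjective.range_eq]
    exact isPreconnected_range f.continuous
  have hpre : IsPreconnected (({0} : Set ℝ)ᶜ) := isPreconnected_iff_preconnectedSpace.mpr hconn
  have hord := hpre.ordConnected
  have hm : (0 : ℝ) ∈ (({0} : Set ℝ)ᶜ) :=
    hord.out (x := (-1 : ℝ)) (by simp) (y := (1 : ℝ)) (by simp) ⟨by norm_num, by norm_num⟩
  simp at hm

theorem bam_X_of {κ : Cardinal.{0}} (hc : κ ≤ 𝔠) (h : BAm κ X ∨ BAm κ ℝ ∨ BA κ ℝ) :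
    BAm κ X := by
  have key : BAm κ ℝ → BAm κ X := by
    intro h1
    rcases hc.lt_or_eq with hlt | heq
    · exact Pool.Agent.R83.Ba.rToX κ hlt h1
    · rw [heq] at h1
      exact absurd h1 not_bam_real
  rcases h with h | h | h
  · exact h
  · exact key h
  · exact key (bam_of_ba h)

end Pool.Agent.R592.Ba
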